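import Pool.Agent.helper7.BQ.Spec

/-! # Project BQ: row FIN (the part FIN_key, FIN_usb is adapted from helper63/BQ/USB.lean) -/

set_option autoImplicit false

namespace Pool.Agent.BQ

open Finset ArithmeticFunction

private theorem FIN_key (θ : ℝ) (A K₀ Y₀ : ℕ) (hθ : 0 < θ)
    (hY₀ : ∀ Y : ℕ, Y₀ ≤ Y → ∀ Q : ℕ, Real.log Y ^ K₀ ≤ Q → (Q : ℝ) ≤ Real.log Y ^ (K₀ + 1) → ∀ B : ℕ,
      (Y : ℝ) ^ (1 / 2 + θ / 3) ≤ B → B ≤ Y → ∀ α : ℝ,
      WS (fl Q) Y B α ≤ Y * (B : ℝ) ^ 2 / Real.log Y ^ (A + 1))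
    (x : ℕ) (hxY : Y₀ ≤ x) (hx2 : 2 ≤ x) (h1 : (3 : ℝ) ^ K₀ + 36 ≤ Real.log x)
    (h2 : (20 : ℝ) ^ (1 / 2 + θ / 3) ≤ (x : ℝ) ^ (θ / 3)) (B : ℕ)
    (hB1 : (x : ℝ) ^ (1 + θ) ≤ B) (hB2 : B ≤ x ^ 2) (α : ℝ) (c : ℕ) (hc5 : 1 ≤ c) (hc20 : c ≤ 20) :
    WS (fl ⌊Real.log x ^ (K₀ + 1)⌋₊) (c * x ^ 2) B α ≤
      (c : ℝ) * (x : ℝ) ^ 2 * (B : ℝ) ^ 2 / Real.log x ^ (A + 1) := by
  have hx0 : (0 : ℝ) < x := by positivity
  have hx1 : (1 : ℝ) ≤ x := by exact_mod_cast (by omega : 1 ≤ x)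
  have hc0 : (0 : ℝ) < c := by exact_mod_cast hc5
  have hc1 : (1 : ℝ) ≤ c := by exact_mod_cast hc5
  have hc2 : (c : ℝ) ≤ 20 := by exact_mod_cast hc20
  have h3 : (0 : ℝ) < (3 : ℝ) ^ K₀ := by positivity
  have hl1 : (1 : ℝ) ≤ Real.log x := by linarith
  have hl0 : (0 : ℝ) < Real.log x := by linarith
  have hcast : ((c * x ^ 2 : ℕ) : ℝ) = (c : ℝ) * (x : ℝ) ^ 2 := by push_cast; ring
  have hxle : x ≤ c * x ^ 2 := by nlinarith [Nat.pos_of_ne_zero (by omega : x ≠ 0)]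
  have hlogY : Real.log x ≤ Real.log ((c * x ^ 2 : ℕ) : ℝ) := by
    apply Real.log_le_log hx0
    exact_mod_cast hxle
  have hlog20 : Real.log 20 ≤ 36 := by
    have := Real.log_le_sub_one_of_pos (show (0 : ℝ) < 20 by norm_num)
    linarith
  have hlogY2 : Real.log ((c * x ^ 2 : ℕ) : ℝ) ≤ 3 * Real.log x := by
    rw [hcast, Real.log_mul (ne_of_gt hc0) (by positivity), Real.log_pow]
    have : Real.log c ≤ Real.log 20 := Real.log_le_log hc0 hc2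
    push_cast
    linarith
  have hQ1 : Real.log ((c * x ^ 2 : ℕ) : ℝ) ^ K₀ ≤ (⌊Real.log x ^ (K₀ + 1)⌋₊ : ℝ) := by
    have hfl : Real.log x ^ (K₀ + 1) - 1 ≤ (⌊Real.log x ^ (K₀ + 1)⌋₊ : ℝ) := by
      have := Nat.lt_floor_add_one (Real.log x ^ (K₀ + 1))
      linarith
    have hp : Real.log ((c * x ^ 2 : ℕ) : ℝ) ^ K₀ ≤ (3 * Real.log x) ^ K₀ :=
      pow_le_pow_left₀ (by linarith) hlogY2 _
    rw [mul_pow] at hp
    have hk1 : (1 : ℝ) ≤ Real.log x ^ K₀ := one_le_pow₀ hl1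
    have : Real.log x ^ (K₀ + 1) = Real.log x ^ K₀ * Real.log x := pow_succ _ _
    nlinarith [mul_le_mul_of_nonneg_left h1 (by linarith : (0 : ℝ) ≤ Real.log x ^ K₀)]
  have hQ2 : (⌊Real.log x ^ (K₀ + 1)⌋₊ : ℝ) ≤ Real.log ((c * x ^ 2 : ℕ) : ℝ) ^ (K₀ + 1) := by
    calc (⌊Real.log x ^ (K₀ + 1)⌋₊ : ℝ) ≤ Real.log x ^ (K₀ + 1) := Nat.floor_le (by positivity)
      _ ≤ _ := pow_le_pow_left₀ hl0.le hlogY _
  have hB : ((c * x ^ 2 : ℕ) : ℝ) ^ (1 / 2 + θ / 3) ≤ B := by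
    rw [hcast, Real.mul_rpow hc0.le (by positivity)]
    have e1 : (c : ℝ) ^ (1 / 2 + θ / 3) ≤ (x : ℝ) ^ (θ / 3) :=
      (Real.rpow_le_rpow hc0.le hc2 (by positivity)).trans h2
    have e2 : ((x : ℝ) ^ 2) ^ (1 / 2 + θ / 3) = (x : ℝ) ^ (1 + 2 * θ / 3) := by
      rw [← Real.rpow_natCast (x : ℝ) 2, ← Real.rpow_mul hx0.le]
      congr 1
      push_cast
      ring
    rw [e2]
    calc (c : ℝ) ^ (1 / 2 + θ / 3) * (x : ℝ) ^ (1 + 2 * θ / 3)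
        ≤ (x : ℝ) ^ (θ / 3) * (x : ℝ) ^ (1 + 2 * θ / 3) :=
          mul_le_mul_of_nonneg_right e1 (by positivity)
      _ = (x : ℝ) ^ (1 + θ) := by
          rw [← Real.rpow_add hx0]
          congr 1
          ring
      _ ≤ B := hB1
  have hBY : B ≤ c * x ^ 2 := hB2.trans (Nat.le_mul_of_pos_left _ hc5)
  have h := hY₀ (c * x ^ 2) (hxY.trans hxle) _ hQ1 hQ2 B hB hBY α
  refine h.trans ?_
  rw [hcast]
  apply div_le_div_of_nonneg_left (by positivity) (by positivity)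
  exact pow_le_pow_left₀ hl0.le (by rw [← hcast]; exact hlogY) _

private theorem FIN_usb (h1 : UNI_stmt) (θ : ℝ) (A : ℕ) (hθ : 0 < θ) : ∃ K x₀ : ℕ, 1 ≤ K ∧
    ∀ x : ℕ, x₀ ≤ x → ∀ B : ℕ, (x : ℝ) ^ (1 + θ) ≤ B → B ≤ x ^ 2 → ∀ α : ℝ,
    US (fl ⌊Real.log x ^ K⌋₊) x B α ≤ (x : ℝ) ^ 2 * (B : ℝ) ^ 2 / Real.log x ^ A := by
  obtain ⟨K₀, hK₀⟩ := h1 (θ / 3) (A + 1) (by positivity)
  obtain ⟨Y₀, hY₀⟩ := hK₀ (K₀ + 1) (by omega)
  have e1 : ∀ᶠ x : ℕ in Filter.atTop, (3 : ℝ) ^ K₀ + 36 ≤ Real.log x :=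
    (Real.tendsto_log_atTop.comp tendsto_natCast_atTop_atTop).eventually_ge_atTop _
  have e2 : ∀ᶠ x : ℕ in Filter.atTop, (20 : ℝ) ^ (1 / 2 + θ / 3) ≤ (x : ℝ) ^ (θ / 3) :=
    ((tendsto_rpow_atTop (by positivity)).comp tendsto_natCast_atTop_atTop).eventually_ge_atTop _
  obtain ⟨x₁, hx₁⟩ := Filter.eventually_atTop.1 (e1.and e2)
  refine ⟨K₀ + 1, max x₁ (max Y₀ 2), by omega, fun x hx B hB1 hB2 α => ?_⟩
  have hxa : x₁ ≤ x := le_trans (le_max_left _ _) hx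
  have hxb : Y₀ ≤ x := le_trans (le_trans (le_max_left _ _) (le_max_right _ _)) hx
  have hxc : 2 ≤ x := le_trans (le_trans (le_max_right _ _) (le_max_right _ _)) hx
  obtain ⟨g1, g2⟩ := hx₁ x hxa
  have key := FIN_key θ A K₀ Y₀ hθ hY₀ x hxb hxc g1 g2 B hB1 hB2 α
  have k5 := key 5 (by norm_num) (by norm_num)
  have k10 := key 10 (by norm_num) (by norm_num)
  have k20 := key 20 (by norm_num) (by norm_num)
  set F := fl ⌊Real.log x ^ (K₀ + 1)⌋₊ with hF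
  have hsum : US F x B α = WS F (5 * x ^ 2) B α + WS F (10 * x ^ 2) B α + WS F (20 * x ^ 2) B α := by
    unfold US WS
    have a1 : 2 * (5 * x ^ 2) = 10 * x ^ 2 := by ring
    have a2 : 2 * (10 * x ^ 2) = 20 * x ^ 2 := by ring
    have a3 : 2 * (20 * x ^ 2) = 40 * x ^ 2 := by ring
    rw [a1, a2, a3, Finset.sum_Ico_consecutive _ (by omega) (by omega),
      Finset.sum_Ico_consecutive _ (by omega) (by omega)]
  rw [hsum]
  have h3 : (0 : ℝ) < (3 : ℝ) ^ K₀ := by positivity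
  have hl : (36 : ℝ) ≤ Real.log x := by linarith
  have hl0 : (0 : ℝ) < Real.log x := by linarith
  have hfin : 35 * ((x : ℝ) ^ 2 * (B : ℝ) ^ 2) / Real.log x ^ (A + 1) ≤
      (x : ℝ) ^ 2 * (B : ℝ) ^ 2 / Real.log x ^ A := by
    rw [div_le_div_iff₀ (by positivity) (by positivity), pow_succ (Real.log x) A]
    have hz : (0 : ℝ) ≤ (x : ℝ) ^ 2 * (B : ℝ) ^ 2 * Real.log x ^ A := by positivity
    have hz2 := mul_nonneg hz (by linarith : (0 : ℝ) ≤ Real.log x - 35)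
    linarith
  have e : ((5 : ℕ) : ℝ) * (x : ℝ) ^ 2 * (B : ℝ) ^ 2 / Real.log x ^ (A + 1) +
      ((10 : ℕ) : ℝ) * (x : ℝ) ^ 2 * (B : ℝ) ^ 2 / Real.log x ^ (A + 1) +
      ((20 : ℕ) : ℝ) * (x : ℝ) ^ 2 * (B : ℝ) ^ 2 / Real.log x ^ (A + 1) =
      35 * ((x : ℝ) ^ 2 * (B : ℝ) ^ 2) / Real.log x ^ (A + 1) := by
    push_cast
    ring
  linarith



private theorem FIN_markov (S : Finset ℤ) (g : ℤ → ℝ) (t M : ℝ) (ht : 0 < t)
    (hg : ∀ b ∈ S, 0 ≤ g b) (hM : ∑ b ∈ S, g b ≤ M) :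
    (#(S.filter fun b => t < g b) : ℝ) * t ≤ M := by
  calc (#(S.filter fun b => t < g b) : ℝ) * t = ∑ _b ∈ S.filter (fun b => t < g b), t := by
        rw [Finset.sum_const, nsmul_eq_mul]
    _ ≤ ∑ b ∈ S.filter (fun b => t < g b), g b :=
        Finset.sum_le_sum fun b hb => (Finset.mem_filter.1 hb).2.le
    _ ≤ ∑ b ∈ S, g b := Finset.sum_le_sum_of_subset_of_nonneg (Finset.filter_subset _ _)
        fun b hb _ => hg b hb
    _ ≤ M := hM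

private theorem FIN_RL (h1 : VAR_stmt) (h2 : UNI_stmt) (h3 : SQF_stmt) (h4 : MTM_stmt) (h5 : MTV_stmt)
    (θ η ε : ℝ) (hθ : 0 < θ) (hη : 0 < η) (hε : 0 < ε) :
    ∃ w₀ : ℕ, ∀ w : ℕ, w₀ ≤ w → ∃ x₀ : ℕ, ∀ x : ℕ, x₀ ≤ x → ∀ (b₀ : ℤ) (B : ℕ), |b₀| ≤ (x : ℤ) ^ 2 →
    (x : ℝ) ^ (1 + θ) ≤ B → B ≤ x ^ 2 →
    (#((Ioc b₀ (b₀ + B)).filter fun b : ℤ =>
      η * x < |Rf (fun n => vonMangoldt n) x b - x * sing w b|) : ℝ) ≤ ε * B := by
  obtain ⟨ε', hε'⟩ : ∃ e : ℝ, e = ε * η ^ 2 / 9 := ⟨_, rfl⟩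
  have hε'0 : 0 < ε' := by rw [hε']; positivity
  obtain ⟨A, x₁, hVAR⟩ := h1 θ ε' hθ hε'0
  obtain ⟨K, x₂, hK1, hUSB⟩ := FIN_usb h2 θ A hθ
  obtain ⟨C, hC, hSQ⟩ := h3
  obtain ⟨X₀, hSQF⟩ := hSQ K
  obtain ⟨x₃, hMTM⟩ := h4 1 K
  obtain ⟨w₀, hMTV⟩ := h5 ε' hε'0
  refine ⟨w₀, fun w hw => ?_⟩
  obtain ⟨Q₀, hQ₀⟩ := hMTV w hw
  have e1 : ∀ᶠ x : ℕ in Filter.atTop, 1 + Real.log 41 + 369 * C + Q₀ + 1 + 1 / ε' ≤ Real.log x :=
    (Real.tendsto_log_atTop.comp tendsto_natCast_atTop_atTop).eventually_ge_atTop _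
  have e2 : ∀ᶠ x : ℕ in Filter.atTop, Real.log x ^ (K * 5) ≤ x := by
    have h := ((Real.isLittleO_pow_log_id_atTop (n := K * 5)).comp_tendsto
      tendsto_natCast_atTop_atTop).bound (show (0 : ℝ) < 1 by norm_num)
    filter_upwards [h] with x hx
    simp only [Function.comp, id, one_mul, Real.norm_eq_abs, Nat.abs_cast] at hx
    exact (le_abs_self _).trans hx
  obtain ⟨x₄, hx₄⟩ := Filter.eventually_atTop.1 (e1.and e2)
  refine ⟨max (max x₁ x₂) (max (max x₃ x₄) (max X₀ 2)), ?_⟩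
  intro x hx b₀ B hb₀ hB1 hB2
  have g1 : x₁ ≤ x := (le_max_left _ _).trans ((le_max_left _ _).trans hx)
  have g2 : x₂ ≤ x := (le_max_right _ _).trans ((le_max_left _ _).trans hx)
  have g3 : x₃ ≤ x := (le_max_left _ _).trans ((le_max_left _ _).trans ((le_max_right _ _).trans hx))
  have g4 : x₄ ≤ x := (le_max_right _ _).trans ((le_max_left _ _).trans ((le_max_right _ _).trans hx))
  have g5 : X₀ ≤ x := (le_max_left _ _).trans ((le_max_right _ _).trans ((le_max_right _ _).trans hx))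
  have g6 : 2 ≤ x := (le_max_right _ _).trans ((le_max_right _ _).trans ((le_max_right _ _).trans hx))
  obtain ⟨l1, l2⟩ := hx₄ x g4
  have hx0 : (0 : ℝ) < x := by positivity
  have hx1 : (1 : ℝ) ≤ x := by exact_mod_cast (by omega : 1 ≤ x)
  have hlog41 : 0 ≤ Real.log 41 := Real.log_nonneg (by norm_num)
  have hQ0' : (0 : ℝ) ≤ Q₀ := Nat.cast_nonneg _
  have hie : 0 < 1 / ε' := by positivity
  have hl1 : 1 ≤ Real.log x := by linarith [mul_pos (show (0 : ℝ) < 369 by norm_num) hC]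
  have hl0 : 0 < Real.log x := by linarith
  have hlC : 369 * C ≤ Real.log x := by linarith
  have hxB : (x : ℝ) ≤ B := by
    calc (x : ℝ) = (x : ℝ) ^ (1 : ℝ) := (Real.rpow_one _).symm
      _ ≤ (x : ℝ) ^ (1 + θ) := Real.rpow_le_rpow_of_exponent_le hx1 (by linarith)
      _ ≤ B := hB1
  have hB0 : (0 : ℝ) ≤ B := by linarith
  set Q : ℕ := ⌊Real.log x ^ K⌋₊ with hQ
  have hQK : (Q : ℝ) ≤ Real.log x ^ K := Nat.floor_le (by positivity)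
  have hQQ : Q₀ ≤ Q := by
    refine Nat.le_floor ?_
    calc (Q₀ : ℝ) ≤ Real.log x ^ 1 := by
          rw [pow_one]
          linarith [mul_pos (show (0 : ℝ) < 369 by norm_num) hC]
      _ ≤ Real.log x ^ K := pow_le_pow_right₀ hl1 hK1
  have hQ5 : Q ^ 5 ≤ B := by
    have h : ((Q : ℝ)) ^ 5 ≤ B := by
      calc ((Q : ℝ)) ^ 5 ≤ (Real.log x ^ K) ^ 5 := pow_le_pow_left₀ (Nat.cast_nonneg _) hQK 5
        _ = Real.log x ^ (K * 5) := by rw [pow_mul]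
        _ ≤ x := l2
        _ ≤ B := hxB
    exact_mod_cast h
  -- the square mean of fl
  have hfl : ∑ n ∈ Ioc (5 * x ^ 2) (41 * x ^ 2), fl Q n ^ 2 ≤ (x : ℝ) ^ 2 * Real.log x ^ 3 := by
    have hxle : x ≤ 41 * x ^ 2 := by nlinarith
    have hcast : ((41 * x ^ 2 : ℕ) : ℝ) = 41 * (x : ℝ) ^ 2 := by push_cast; ring
    have hlX : Real.log x ≤ Real.log ((41 * x ^ 2 : ℕ) : ℝ) :=
      Real.log_le_log hx0 (by exact_mod_cast hxle)
    have hlX2 : Real.log ((41 * x ^ 2 : ℕ) : ℝ) ≤ 3 * Real.log x := by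
      rw [hcast, Real.log_mul (by norm_num) (by positivity), Real.log_pow]
      push_cast
      linarith [mul_pos (show (0 : ℝ) < 369 by norm_num) hC]
    have h := hSQF (41 * x ^ 2) (g5.trans hxle) Q (hQK.trans (pow_le_pow_left₀ hl0.le hlX K))
    calc ∑ n ∈ Ioc (5 * x ^ 2) (41 * x ^ 2), fl Q n ^ 2 ≤ ∑ n ∈ Ioc 0 (41 * x ^ 2), fl Q n ^ 2 := by
          refine Finset.sum_le_sum_of_subset_of_nonneg ?_ fun n _ _ => sq_nonneg _
          exact Finset.Ioc_subset_Ioc_left (Nat.zero_le _)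
      _ ≤ C * ((41 * x ^ 2 : ℕ) : ℝ) * Real.log ((41 * x ^ 2 : ℕ) : ℝ) ^ 2 := h
      _ ≤ C * ((41 * x ^ 2 : ℕ) : ℝ) * (3 * Real.log x) ^ 2 := by
          refine mul_le_mul_of_nonneg_left ?_ (by positivity)
          exact pow_le_pow_left₀ (hl0.le.trans hlX) hlX2 2
      _ = (x : ℝ) ^ 2 * Real.log x ^ 2 * (369 * C) := by rw [hcast]; ring
      _ ≤ (x : ℝ) ^ 2 * Real.log x ^ 2 * Real.log x := mul_le_mul_of_nonneg_left hlC (by positivity)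
      _ = (x : ℝ) ^ 2 * Real.log x ^ 3 := by ring
  have hV := hVAR x g1 B hB1 hB2 (fl Q) hfl (hUSB x g2 B hB1 hB2) b₀ hb₀
  have hM := hQ₀ Q hQQ b₀ B hQ5
  have hb2 : ∀ b ∈ Ioc b₀ (b₀ + (B : ℤ)), b ≤ 2 * (x : ℤ) ^ 2 := by
    intro b hb
    rw [Finset.mem_Ioc] at hb
    have h6 : (B : ℤ) ≤ (x : ℤ) ^ 2 := by exact_mod_cast hB2
    have h7 := (abs_le.1 hb₀).2
    linarith [hb.2]
  have hsum : ∑ b ∈ Ioc b₀ (b₀ + (B : ℤ)), (Rf (fun n => vonMangoldt n) x b - x * sing w b) ^ 2 ≤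
      9 * ε' * (B * (x : ℝ) ^ 2) := by
    have hpt : ∀ b ∈ Ioc b₀ (b₀ + (B : ℤ)), (Rf (fun n => vonMangoldt n) x b - x * sing w b) ^ 2 ≤
        3 * (Rf (fl Q) x b ^ 2 + (x / Real.log x) ^ 2 +
          (x : ℝ) ^ 2 * (∑ q ∈ Ioc 0 Q, AA q b - sing w b) ^ 2) := by
      intro b hb
      have h6 := hMTM x g3 Q hQK b (hb2 b hb)
      rw [pow_one] at h6
      have h7 : Rf (fl Q) x b = Rf (fun n => vonMangoldt n) x b - Rf (fun n => Lsh Q (n : ℤ)) x b := by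
        unfold Rf fl
        rw [← Finset.sum_sub_distrib]
        refine Finset.sum_congr rfl fun p _ => ?_
        ring
      set u := Rf (fl Q) x b
      set v := Rf (fun n => Lsh Q (n : ℤ)) x b - x * ∑ q ∈ Ioc 0 Q, AA q b with hv
      set z := (x : ℝ) * (∑ q ∈ Ioc 0 Q, AA q b - sing w b) with hz
      have h8 : Rf (fun n => vonMangoldt n) x b - x * sing w b = u + v + z := by
        rw [hv, hz, h7]
        ring
      have h9 : v ^ 2 ≤ (x / Real.log x) ^ 2 := sq_le_sq' (by linarith [(abs_le.1 h6).1])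
        (abs_le.1 h6).2
      rw [h8, show (x : ℝ) ^ 2 * (∑ q ∈ Ioc 0 Q, AA q b - sing w b) ^ 2 = z ^ 2 by rw [hz]; ring]
      nlinarith [sq_nonneg (u - v), sq_nonneg (u - z), sq_nonneg (v - z)]
    have hcard : (#(Ioc b₀ (b₀ + (B : ℤ))) : ℝ) = B := by
      rw [Int.card_Ioc]
      simp
    have hlog2 : 1 / Real.log x ^ 2 ≤ ε' := by
      have h6 : 1 / ε' ≤ Real.log x ^ 2 := by
        have h7 : 1 / ε' ≤ Real.log x := by linarith [mul_pos (show (0 : ℝ) < 369 by norm_num) hC]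
        nlinarith
      rw [div_le_iff₀ (by positivity)]
      rw [div_le_iff₀ hε'0] at h6
      linarith
    calc ∑ b ∈ Ioc b₀ (b₀ + (B : ℤ)), (Rf (fun n => vonMangoldt n) x b - x * sing w b) ^ 2
        ≤ ∑ b ∈ Ioc b₀ (b₀ + (B : ℤ)), 3 * (Rf (fl Q) x b ^ 2 + (x / Real.log x) ^ 2 +
          (x : ℝ) ^ 2 * (∑ q ∈ Ioc 0 Q, AA q b - sing w b) ^ 2) := Finset.sum_le_sum hpt
      _ = 3 * (∑ b ∈ Ioc b₀ (b₀ + (B : ℤ)), Rf (fl Q) x b ^ 2 + B * (x / Real.log x) ^ 2 +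
          (x : ℝ) ^ 2 * ∑ b ∈ Ioc b₀ (b₀ + (B : ℤ)), (∑ q ∈ Ioc 0 Q, AA q b - sing w b) ^ 2) := by
          rw [← Finset.mul_sum, Finset.sum_add_distrib, Finset.sum_add_distrib, Finset.sum_const,
            nsmul_eq_mul, hcard, ← Finset.mul_sum]
      _ ≤ 3 * (ε' * B * (x : ℝ) ^ 2 + B * (x : ℝ) ^ 2 * ε' + (x : ℝ) ^ 2 * (ε' * B)) := by
          refine mul_le_mul_of_nonneg_left ?_ (by norm_num)
          refine add_le_add (add_le_add hV ?_) (mul_le_mul_of_nonneg_left hM (by positivity))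
          calc (B : ℝ) * (x / Real.log x) ^ 2 = B * (x : ℝ) ^ 2 * (1 / Real.log x ^ 2) := by
                rw [div_pow]
                ring
            _ ≤ B * (x : ℝ) ^ 2 * ε' := mul_le_mul_of_nonneg_left hlog2 (by positivity)
      _ = 9 * ε' * (B * (x : ℝ) ^ 2) := by ring
  have hmk := FIN_markov (Ioc b₀ (b₀ + (B : ℤ)))
    (fun b => (Rf (fun n => vonMangoldt n) x b - x * sing w b) ^ 2) ((η * x) ^ 2)
    (9 * ε' * (B * (x : ℝ) ^ 2)) (by positivity) (fun b _ => sq_nonneg _) hsum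
  have hsame : (Ioc b₀ (b₀ + (B : ℤ))).filter (fun b : ℤ =>
      η * x < |Rf (fun n => vonMangoldt n) x b - x * sing w b|) =
      (Ioc b₀ (b₀ + (B : ℤ))).filter (fun b : ℤ =>
        (η * x) ^ 2 < (Rf (fun n => vonMangoldt n) x b - x * sing w b) ^ 2) := by
    refine Finset.filter_congr fun b _ => ?_
    rw [sq_lt_sq, abs_of_pos (show 0 < η * x by positivity)]
  rw [hsame]
  have h10 : (0 : ℝ) < (η * x) ^ 2 := by positivity
  have h11 : ε * B * (η * x) ^ 2 = 9 * ε' * (B * (x : ℝ) ^ 2) := by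
    rw [hε']
    ring
  refine le_of_mul_le_mul_right ?_ h10
  rw [h11]
  exact hmk

private theorem FIN_nu (l : ℕ) (b : ℤ) : nu l b ≤ l - 1 := by
  unfold nu
  refine (Finset.card_filter_le _ _).trans ?_
  rw [Nat.card_Ico]

private theorem FIN_sing (w : ℕ) (b : ℤ) : 0 ≤ sing w b ∧
    sing w b ≤ ∏ l ∈ (Icc 1 w).filter Nat.Prime, ((l : ℝ) / ((l : ℝ) - 1)) := by
  have key : ∀ l ∈ (Icc 1 w).filter Nat.Prime, 0 < (l : ℝ) - 1 ∧ (nu l b : ℝ) / ((l : ℝ) - 1) ≤ 1 := by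
    intro l hl
    have hp := (Finset.mem_filter.1 hl).2
    have h2 : (2 : ℝ) ≤ l := by exact_mod_cast hp.two_le
    have h3 : 0 < (l : ℝ) - 1 := by linarith
    refine ⟨h3, ?_⟩
    rw [div_le_one h3]
    have h4 : ((nu l b : ℕ) : ℝ) ≤ ((l - 1 : ℕ) : ℝ) := by exact_mod_cast FIN_nu l b
    rw [Nat.cast_sub hp.one_lt.le, Nat.cast_one] at h4
    exact h4
  unfold sing
  constructor
  · refine Finset.prod_nonneg fun l hl => ?_
    obtain ⟨h1, h2⟩ := key l hl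
    have h3 : (0 : ℝ) ≤ l := Nat.cast_nonneg _
    exact mul_nonneg (div_nonneg h3 h1.le) (by linarith)
  · refine Finset.prod_le_prod (fun l hl => ?_) (fun l hl => ?_)
    · obtain ⟨h1, h2⟩ := key l hl
      have h3 : (0 : ℝ) ≤ l := Nat.cast_nonneg _
      exact mul_nonneg (div_nonneg h3 h1.le) (by linarith)
    · obtain ⟨h1, h2⟩ := key l hl
      have h3 : (0 : ℝ) ≤ l := Nat.cast_nonneg _
      have h4 : (0 : ℝ) ≤ (nu l b : ℝ) / ((l : ℝ) - 1) := div_nonneg (Nat.cast_nonneg _) h1.le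
      exact mul_le_of_le_one_right (div_nonneg h3 h1.le) (by linarith)

private theorem FIN_real (x L c P R D sg S η ε₁ ε : ℝ) (hx : 0 < x) (hL : 0 < L) (hc : 0 ≤ c)
    (hη : 0 < η) (h1 : |R - x * sg| ≤ η * x) (h2 : D ≤ η * x) (h3 : 0 ≤ D) (h4 : R = P + D)
    (h5 : |P - 2 * L ^ 2 * c| ≤ ε₁ * (2 * L ^ 2 * c)) (h6 : 0 ≤ ε₁) (h7 : ε₁ ≤ 1 / 2) (hsg : sg ≤ S)
    (h8 : ε₁ * (2 * (S + 2 * η)) + 2 * η ≤ ε) : |c / (x / (2 * L ^ 2)) - sg| ≤ ε := by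
  obtain ⟨y, hy⟩ : ∃ y : ℝ, y = c / (x / (2 * L ^ 2)) := ⟨_, rfl⟩
  have hy1 : 2 * L ^ 2 * c = y * x := by
    rw [hy]
    field_simp
  have hy0 : 0 ≤ y := by rw [hy]; positivity
  rw [← hy]
  rw [hy1] at h5
  have a1 := abs_le.1 h1
  have a5 := abs_le.1 h5
  -- bound of y
  have b1 : y * x ≤ 2 * (x * (S + 2 * η)) := by
    have c1 : ε₁ * (y * x) ≤ 1 / 2 * (y * x) := mul_le_mul_of_nonneg_right h7 (by positivity)
    have c2 : x * sg ≤ x * S := mul_le_mul_of_nonneg_left hsg hx.le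
    nlinarith
  have b2 : y ≤ 2 * (S + 2 * η) := by
    refine le_of_mul_le_mul_right ?_ hx
    linarith
  have b3 : ε₁ * y ≤ ε₁ * (2 * (S + 2 * η)) := mul_le_mul_of_nonneg_left b2 h6
  have b4 : ε₁ * (y * x) = ε₁ * y * x := by ring
  rw [abs_le]
  constructor
  · refine le_of_mul_le_mul_right ?_ hx
    have : x * sg - η * x - η * x - ε₁ * y * x ≤ y * x := by linarith
    nlinarith
  · refine le_of_mul_le_mul_right ?_ hx
    have : y * x ≤ x * sg + η * x + ε₁ * y * x := by linarith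
    nlinarith

private theorem FIN_first (h1 : VAR_stmt) (h2 : UNI_stmt) (h3 : SQF_stmt) (h4 : MTM_stmt)
    (h5 : MTV_stmt) (h7 : PPW_stmt) (h8 : WGT_stmt) (θ ε : ℝ) (hθ : 0 < θ) (hε : 0 < ε) :
    ∃ w₀ : ℕ, ∀ w : ℕ, w₀ ≤ w → ∃ x₀ : ℕ, ∀ x : ℕ, x₀ ≤ x → ∀ (b₀ : ℤ) (B : ℕ), |b₀| ≤ (x : ℤ) ^ 2 →
    (x : ℝ) ^ (1 + θ) ≤ B → B ≤ x ^ 2 →
    (#((Ioc b₀ (b₀ + B)).filter fun b : ℤ =>
      ε < |(#(pairs x b) : ℝ) / (x / (2 * Real.log x ^ 2)) - sing w b|) : ℝ) ≤ ε * B := by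
  obtain ⟨η, hη⟩ : ∃ e : ℝ, e = ε / 8 := ⟨_, rfl⟩
  have hη0 : 0 < η := by rw [hη]; positivity
  obtain ⟨w₀, hw₀⟩ := FIN_RL h1 h2 h3 h4 h5 θ η (ε / 2) hθ hη0 (by positivity)
  refine ⟨w₀, fun w hw => ?_⟩
  obtain ⟨x₁, hRL⟩ := hw₀ w hw
  obtain ⟨S, hS⟩ : ∃ S : ℝ, S = ∏ l ∈ (Icc 1 w).filter Nat.Prime, ((l : ℝ) / ((l : ℝ) - 1)) := ⟨_, rfl⟩
  have hS0 : 0 ≤ S := by
    rw [hS]
    exact (FIN_sing w 0).1.trans (FIN_sing w 0).2
  obtain ⟨ε₁, hε₁⟩ : ∃ e : ℝ, e = min (1 / 2) (ε / (4 * (S + ε))) := ⟨_, rfl⟩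
  have hε₁0 : 0 < ε₁ := by
    rw [hε₁]
    exact lt_min (by norm_num) (by positivity)
  have hε₁1 : ε₁ ≤ 1 / 2 := by rw [hε₁]; exact min_le_left _ _
  have hε₁2 : ε₁ * (2 * (S + 2 * η)) + 2 * η ≤ ε := by
    have a1 : ε₁ ≤ ε / (4 * (S + ε)) := by rw [hε₁]; exact min_le_right _ _
    have a2 : ε₁ * (4 * (S + ε)) ≤ ε := by rwa [le_div_iff₀ (by positivity)] at a1
    have a3 : ε₁ * (2 * (S + 2 * η)) ≤ ε₁ * (2 * (S + ε)) := by
      refine mul_le_mul_of_nonneg_left ?_ hε₁0.le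
      rw [hη]
      linarith
    rw [hη] at a3 ⊢
    nlinarith
  obtain ⟨x₂, hWGT⟩ := h8 ε₁ hε₁0
  obtain ⟨x₃, hPPW⟩ := h7
  have e2 : ∀ᶠ x : ℕ in Filter.atTop, Real.log x ^ 4 ≤ (ε / 2 * η) * x := by
    have h := ((Real.isLittleO_pow_log_id_atTop (n := 4)).comp_tendsto
      tendsto_natCast_atTop_atTop).bound (show (0 : ℝ) < ε / 2 * η by positivity)
    filter_upwards [h] with x hx
    simp only [Function.comp, id, Real.norm_eq_abs, Nat.abs_cast] at hx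
    exact (le_abs_self _).trans hx
  obtain ⟨x₄, hx₄⟩ := Filter.eventually_atTop.1 e2
  refine ⟨max (max x₁ x₂) (max (max x₃ x₄) 3), ?_⟩
  intro x hx b₀ B hb₀ hB1 hB2
  have g1 : x₁ ≤ x := (le_max_left _ _).trans ((le_max_left _ _).trans hx)
  have g2 : x₂ ≤ x := (le_max_right _ _).trans ((le_max_left _ _).trans hx)
  have g3 : x₃ ≤ x := (le_max_left _ _).trans ((le_max_left _ _).trans ((le_max_right _ _).trans hx))
  have g4 : x₄ ≤ x := (le_max_right _ _).trans ((le_max_left _ _).trans ((le_max_right _ _).trans hx))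
  have g6 : 3 ≤ x := (le_max_right _ _).trans ((le_max_right _ _).trans hx)
  have l2 := hx₄ x g4
  have hx0 : (0 : ℝ) < x := by positivity
  have hx1 : (1 : ℝ) ≤ x := by exact_mod_cast (by omega : 1 ≤ x)
  have hl0 : 0 < Real.log x := Real.log_pos (by exact_mod_cast (by omega : 1 < x))
  have hxB : (x : ℝ) ≤ B := by
    calc (x : ℝ) = (x : ℝ) ^ (1 : ℝ) := (Real.rpow_one _).symm
      _ ≤ (x : ℝ) ^ (1 + θ) := Real.rpow_le_rpow_of_exponent_le hx1 (by linarith)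
      _ ≤ B := hB1
  have hxB' : x ≤ B := by exact_mod_cast hxB
  have hB0 : (0 : ℝ) ≤ B := by linarith
  have hbad := hRL x g1 b₀ B hb₀ hB1 hB2
  set D : ℤ → ℝ := fun b => ∑ p ∈ (Pr x).filter (fun p : ℕ => ¬ (8 * (p : ℤ) ^ 2 - b).toNat.Prime),
    Real.log p * vonMangoldt (8 * (p : ℤ) ^ 2 - b).toNat with hD
  have hD0 : ∀ b, 0 ≤ D b := by
    intro b
    refine Finset.sum_nonneg fun p _ => ?_
    exact mul_nonneg (Real.log_natCast_nonneg _) vonMangoldt_nonneg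
  have hmk := FIN_markov (Ioc b₀ (b₀ + (B : ℤ))) D (η * x) (B * Real.log x ^ 4) (by positivity)
    (fun b _ => hD0 b) (hPPW x g3 b₀ B hb₀ hxB' hB2)
  have hbad2 : (#((Ioc b₀ (b₀ + (B : ℤ))).filter fun b => η * x < D b) : ℝ) ≤ ε / 2 * B := by
    refine le_of_mul_le_mul_right ?_ (show 0 < η * x by positivity)
    refine hmk.trans ?_
    calc (B : ℝ) * Real.log x ^ 4 ≤ B * ((ε / 2 * η) * x) := mul_le_mul_of_nonneg_left l2 hB0
      _ = ε / 2 * B * (η * x) := by ring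
  have hsub : (Ioc b₀ (b₀ + (B : ℤ))).filter (fun b : ℤ =>
      ε < |(#(pairs x b) : ℝ) / (x / (2 * Real.log x ^ 2)) - sing w b|) ⊆
      ((Ioc b₀ (b₀ + (B : ℤ))).filter fun b : ℤ =>
        η * x < |Rf (fun n => vonMangoldt n) x b - x * sing w b|) ∪
      ((Ioc b₀ (b₀ + (B : ℤ))).filter fun b => η * x < D b) := by
    intro b hb
    rw [Finset.mem_filter] at hb
    rw [Finset.mem_union, Finset.mem_filter, Finset.mem_filter]
    by_contra hcon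
    rw [not_or] at hcon
    obtain ⟨c1, c2⟩ := hcon
    have c3 : |Rf (fun n => vonMangoldt n) x b - x * sing w b| ≤ η * x := by
      by_contra h
      exact c1 ⟨hb.1, not_le.1 h⟩
    have c4 : D b ≤ η * x := by
      by_contra h
      exact c2 ⟨hb.1, not_le.1 h⟩
    have hb' := Finset.mem_Ioc.1 hb.1
    have h6 : (B : ℤ) ≤ (x : ℤ) ^ 2 := by exact_mod_cast hB2
    have h7 := abs_le.1 hb₀
    have c5 := hWGT x g2 b (by linarith [hb'.1]) (by linarith [hb'.2])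
    have c6 : Rf (fun n => vonMangoldt n) x b =
        ∑ p ∈ pairs x b, Real.log p * Real.log ((8 * (p : ℤ) ^ 2 - b : ℤ) : ℝ) + D b := by
      have d1 : pairs x b = (Pr x).filter (fun p : ℕ => (8 * (p : ℤ) ^ 2 - b).toNat.Prime) := by
        unfold pairs Pr
        rw [Finset.filter_filter]
      rw [d1, hD]
      unfold Rf
      rw [← Finset.sum_filter_add_sum_filter_not (Pr x)
        (fun p : ℕ => (8 * (p : ℤ) ^ 2 - b).toNat.Prime)]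
      congr 1
      refine Finset.sum_congr rfl fun p hp => ?_
      have hp2 := (Finset.mem_filter.1 hp).2
      have hpos : 0 < (8 * (p : ℤ) ^ 2 - b).toNat := hp2.pos
      beta_reduce
      rw [vonMangoldt_apply_prime hp2]
      congr 2
      have d2 : ((8 * (p : ℤ) ^ 2 - b).toNat : ℤ) = 8 * (p : ℤ) ^ 2 - b := by
        apply Int.toNat_of_nonneg
        omega
      have d3 : (((8 * (p : ℤ) ^ 2 - b).toNat : ℤ) : ℝ) = ((8 * (p : ℤ) ^ 2 - b : ℤ) : ℝ) := by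
        rw [d2]
      rw [← d3]
      norm_cast
    have c7 := FIN_real x (Real.log x) (#(pairs x b)) _ _ (D b) (sing w b) S η ε₁ ε hx0 hl0
      (Nat.cast_nonneg _) hη0 c3 c4 (hD0 b) c6 c5 hε₁0.le hε₁1 (by rw [hS]; exact (FIN_sing w b).2)
      hε₁2
    linarith [hb.2]
  calc (#((Ioc b₀ (b₀ + (B : ℤ))).filter fun b : ℤ =>
      ε < |(#(pairs x b) : ℝ) / (x / (2 * Real.log x ^ 2)) - sing w b|) : ℝ)
      ≤ ((#((Ioc b₀ (b₀ + (B : ℤ))).filter fun b : ℤ =>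
        η * x < |Rf (fun n => vonMangoldt n) x b - x * sing w b|) +
        #((Ioc b₀ (b₀ + (B : ℤ))).filter fun b => η * x < D b) : ℕ) : ℝ) := by
        exact_mod_cast (Finset.card_le_card hsub).trans (Finset.card_union_le _ _)
    _ ≤ ε / 2 * B + ε / 2 * B := by
        rw [Nat.cast_add]
        exact add_le_add hbad hbad2
    _ = ε * B := by ring

theorem FIN (h1 : VAR_stmt) (h2 : UNI_stmt) (h3 : SQF_stmt) (h4 : MTM_stmt) (h5 : MTV_stmt)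
    (h6 : INV_stmt) (h7 : PPW_stmt) (h8 : WGT_stmt) : FIN_stmt := by
  intro θ ε hθ hε
  refine ⟨FIN_first h1 h2 h3 h4 h5 h7 h8 θ ε hθ hε, ?_⟩
  obtain ⟨c₁, hc₁, hINV⟩ := h6 (ε / 2) (by positivity)
  obtain ⟨ε₂, hε₂⟩ : ∃ e : ℝ, e = min (ε / 2) (c₁ / 2) := ⟨_, rfl⟩
  have hε₂0 : 0 < ε₂ := by
    rw [hε₂]
    exact lt_min (by positivity) (by positivity)
  have hε₂1 : ε₂ ≤ ε / 2 := by rw [hε₂]; exact min_le_left _ _
  have hε₂2 : ε₂ ≤ c₁ / 2 := by rw [hε₂]; exact min_le_right _ _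
  obtain ⟨w₀, hw₀⟩ := FIN_first h1 h2 h3 h4 h5 h7 h8 θ ε₂ hθ hε₂0
  obtain ⟨x₁, hx₁⟩ := hw₀ (max w₀ 3) (le_max_left _ _)
  obtain ⟨B₀, hB₀⟩ := hINV (max w₀ 3) (le_max_right _ _)
  refine ⟨c₁ / 4, by positivity, max (max x₁ B₀) 3, ?_⟩
  intro x hx b₀ B hb₀ hB1 hB2
  have g1 : x₁ ≤ x := (le_max_left _ _).trans ((le_max_left _ _).trans hx)
  have g2 : B₀ ≤ x := (le_max_right _ _).trans ((le_max_left _ _).trans hx)
  have g6 : 3 ≤ x := (le_max_right _ _).trans hx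
  have hx0 : (0 : ℝ) < x := by positivity
  have hx1 : (1 : ℝ) ≤ x := by exact_mod_cast (by omega : 1 ≤ x)
  have hl0 : 0 < Real.log x := Real.log_pos (by exact_mod_cast (by omega : 1 < x))
  have hxB : (x : ℝ) ≤ B := by
    calc (x : ℝ) = (x : ℝ) ^ (1 : ℝ) := (Real.rpow_one _).symm
      _ ≤ (x : ℝ) ^ (1 + θ) := Real.rpow_le_rpow_of_exponent_le hx1 (by linarith)
      _ ≤ B := hB1
  have hxB' : x ≤ B := by exact_mod_cast hxB
  have hB0 : (0 : ℝ) ≤ B := by linarith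
  have k1 := hx₁ x g1 b₀ B hb₀ hB1 hB2
  have k2 := hB₀ B (g2.trans hxB') b₀
  have hsub : (Ioc b₀ (b₀ + (B : ℤ))).filter (fun b : ℤ =>
      b % 2 = 1 ∧ b % 3 ≠ 2 ∧ (#(pairs x b) : ℝ) < c₁ / 4 * x / Real.log x ^ 2) ⊆
      ((Ioc b₀ (b₀ + (B : ℤ))).filter fun b : ℤ =>
        ε₂ < |(#(pairs x b) : ℝ) / (x / (2 * Real.log x ^ 2)) - sing (max w₀ 3) b|) ∪
      ((Ioc b₀ (b₀ + (B : ℤ))).filter fun b => b % 2 = 1 ∧ b % 3 ≠ 2 ∧ sing (max w₀ 3) b < c₁) := by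
    intro b hb
    rw [Finset.mem_filter] at hb
    obtain ⟨hb1, hb2, hb3, hb4⟩ := hb
    rw [Finset.mem_union, Finset.mem_filter, Finset.mem_filter]
    by_contra hcon
    rw [not_or] at hcon
    obtain ⟨m1, m2⟩ := hcon
    have m3 : c₁ ≤ sing (max w₀ 3) b := by
      by_contra h
      exact m2 ⟨hb1, hb2, hb3, not_le.1 h⟩
    have m4 : |(#(pairs x b) : ℝ) / (x / (2 * Real.log x ^ 2)) - sing (max w₀ 3) b| ≤ ε₂ := by
      by_contra h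
      exact m1 ⟨hb1, not_le.1 h⟩
    have m5 := (abs_le.1 m4).1
    have m6 : c₁ / 2 ≤ (#(pairs x b) : ℝ) / (x / (2 * Real.log x ^ 2)) := by linarith
    rw [le_div_iff₀ (by positivity)] at m6
    have m7 : c₁ / 2 * (x / (2 * Real.log x ^ 2)) = c₁ / 4 * x / Real.log x ^ 2 := by
      field_simp
      ring
    rw [m7] at m6
    linarith
  calc (#((Ioc b₀ (b₀ + (B : ℤ))).filter fun b : ℤ =>
      b % 2 = 1 ∧ b % 3 ≠ 2 ∧ (#(pairs x b) : ℝ) < c₁ / 4 * x / Real.log x ^ 2) : ℝ)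
      ≤ ((#((Ioc b₀ (b₀ + (B : ℤ))).filter fun b : ℤ =>
        ε₂ < |(#(pairs x b) : ℝ) / (x / (2 * Real.log x ^ 2)) - sing (max w₀ 3) b|) +
        #((Ioc b₀ (b₀ + (B : ℤ))).filter fun b => b % 2 = 1 ∧ b % 3 ≠ 2 ∧
          sing (max w₀ 3) b < c₁) : ℕ) : ℝ) := by
        exact_mod_cast (Finset.card_le_card hsub).trans (Finset.card_union_le _ _)
    _ ≤ ε₂ * B + ε / 2 * B := by
        rw [Nat.cast_add]
        exact add_le_add k1 k2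
    _ ≤ ε / 2 * B + ε / 2 * B := by gcongr
    _ = ε * B := by ring

end Pool.Agent.BQ
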